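import Pool.Agent.H925Z.MaxD

set_option autoImplicit false

namespace Pool.Agent.Results.MP_e3b596_gt.AnswerYes

open Pool.Agent.H925Z.MaxTop Cardinal Set Filter Topology
open scoped Pointwise

universe u

/-- Every Abelian group `G` of singular cardinality carries a Hausdorff topology without isolated
points that is maximal (every strictly finer topology has an isolated point), regular, translation
invariant and `#G`-bounded. In Mathlib `σ < τ` says that `σ` is strictly finer than `τ`. -/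
theorem result (G : Type u) [AddCommGroup G] (h : (#G).IsSingular) :
    ∃ τ : TopologicalSpace G,
      @T2Space G τ ∧
      (∀ x : G, ¬ IsOpen[τ] {x}) ∧
      (∀ σ : TopologicalSpace G, σ < τ → ∃ x : G, IsOpen[σ] {x}) ∧
      (∀ x : G, ∀ U ∈ @nhds G τ x, ∃ V ∈ @nhds G τ x, IsClosed[τ] V ∧ V ⊆ U) ∧
      (∀ g : G, Continuous[τ, τ] fun x => g + x) ∧
      ∀ U ∈ @nhds G τ 0, ∃ F : Set G, #F < #G ∧ F + U = Set.univ := by
  obtain ⟨p, hL, hC⟩ := exists_ultra h
  have hsing : ∀ y : G, ({y} : Set G) ∉ p := by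
    intro y hy
    obtain ⟨F, hF, hc⟩ := hL _ hy
    have h1 : (Set.univ : Set G) ⊆ (fun f => f + y) '' F := by
      intro g _
      obtain ⟨f, hf, x, hx, e⟩ := hc g
      exact ⟨f, hf, by rw [e, mem_singleton_iff.1 hx]⟩
    have h2 := (mk_le_mk_of_subset h1).trans_lt (mk_image_le.trans_lt hF)
    rw [mk_univ] at h2
    exact lt_irrefl _ h2
  have hclop : ∀ (x : G) (U : Set G), {g | x + g ∈ U} ∈ p → ∃ V : Set G, x ∈ V ∧ V ⊆ U ∪ {x} ∧
      IsOpen[topOf p] V ∧ IsOpen[topOf p] Vᶜ := by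
    intro x U hU
    obtain ⟨V, h0, h1, h2⟩ := hC _ hU
    refine ⟨{g | -x + g ∈ V}, by simpa using h0, fun g hg => ?_, fun u hu => ?_, fun u hu => ?_⟩
    · rcases h1 hg with h' | h'
      · exact Or.inl (by simpa using h')
      · exact Or.inr (neg_add_eq_zero.1 h').symm
    · exact mem_of_superset ((h2 _).1 hu) fun g hg => by simpa [add_assoc] using hg
    · exact mem_of_superset ((h2 _).2 hu) fun g hg => by simpa [add_assoc] using hg
  let τ : TopologicalSpace G := topOf p
  refine ⟨τ, ⟨fun x y hxy => ?_⟩, fun x hx => ?_, fun σ hσ => ?_, fun x U hU => ?_,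
    fun g => ?_, fun U hU => ?_⟩
  · have h1 : {g | x + g ∈ ({y}ᶜ : Set G)} ∈ p := by
      refine mem_of_superset (Ultrafilter.compl_mem_iff_notMem.2 (hsing (-x + y))) ?_
      intro g hg e
      exact hg (by rw [mem_singleton_iff, ← mem_singleton_iff.1 e]; abel)
    obtain ⟨V, h2, h3, h4, h5⟩ := hclop x _ h1
    refine ⟨V, Vᶜ, h4, h5, h2, fun hy => ?_, disjoint_compl_right⟩
    rcases h3 hy with h' | h'
    · exact h' rfl
    · exact hxy (mem_singleton_iff.1 h').symm
  · refine hsing 0 (mem_of_superset (hx x rfl) fun g hg => ?_)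
    simpa using hg
  · by_contra hn
    refine hσ.not_ge fun U hU u hu => ?_
    by_contra h1
    obtain ⟨V, h2, h3, h4, -⟩ := hclop u Uᶜ (Ultrafilter.compl_mem_iff_notMem.2 h1)
    refine hn ⟨u, ?_⟩
    have e : ({u} : Set G) = V ∩ U := by
      refine Subset.antisymm (singleton_subset_iff.2 ⟨h2, hu⟩) fun g hg => ?_
      exact (h3 hg.1).resolve_left fun h' => h' hg.2
    rw [e]
    exact @IsOpen.inter G σ _ _ (hσ.le V h4) hU
  · obtain ⟨U', h1, h2, h3⟩ := mem_nhds_iff.1 hU
    obtain ⟨V, v1, v2, v3, v4⟩ := hclop x U' (h2 x h3)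
    refine ⟨V, v3.mem_nhds v1, ⟨v4⟩, fun g hg => ?_⟩
    rcases v2 hg with h' | h'
    · exact h1 h'
    · rw [mem_singleton_iff.1 h']; exact h1 h3
  · refine continuous_def.2 fun U hU u hu => ?_
    exact mem_of_superset (hU _ hu) fun y hy => by simpa [add_assoc] using hy
  · obtain ⟨U', h1, h2, h3⟩ := mem_nhds_iff.1 hU
    have h4 : U ∈ p := mem_of_superset (h2 0 h3) fun g hg => h1 (by simpa using hg)
    obtain ⟨F, hF, hc⟩ := hL U h4
    refine ⟨F, hF, eq_univ_of_forall fun g => ?_⟩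
    obtain ⟨f, hf, x, hx, e⟩ := hc g
    exact ⟨f, hf, x, hx, e.symm⟩

end Pool.Agent.Results.MP_e3b596_gt.AnswerYes
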